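import Pool.Agent.H253.US.Weights

/-!
# Nuclear C*-algebras are Ulam stable with respect to von Neumann algebras
-/

set_option autoImplicit false

open scoped CStarAlgebra ComplexOrder

namespace Pool.Agent.Results.MP_a35bd4_an.NuclearUlam

universe u v

/-- `φ` is an `ε`-`*`-homomorphism (no linearity or continuity is assumed). -/
structure IsEpsStarHom {A : Type u} {B : Type v} [NonUnitalCStarAlgebra A]
    [NonUnitalCStarAlgebra B] (ε : ℝ) (φ : A → B) : Prop where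
  ball : ∀ a, ‖a‖ ≤ 1 → ‖φ a‖ ≤ 1
  add : ∀ a b, ‖a‖ ≤ 1 → ‖b‖ ≤ 1 → ‖φ (a + b) - φ a - φ b‖ ≤ ε
  mul : ∀ a b, ‖a‖ ≤ 1 → ‖b‖ ≤ 1 → ‖φ (a * b) - φ a * φ b‖ ≤ ε
  star : ∀ a, ‖a‖ ≤ 1 → ‖φ (star a) - star (φ a)‖ ≤ ε
  smul : ∀ a (z : ℂ), ‖a‖ ≤ 1 → ‖z‖ ≤ 1 → ‖φ (z • a) - z • φ a‖ ≤ ε

/-- Every `ε`-`*`-homomorphism of `A` to `B` with values in `M` is within `δ`, on the closed unit
ball, of a `*`-homomorphism with values in `M`. -/
def StarHomNear (A : Type u) [NonUnitalCStarAlgebra A] {B : Type v} [NonUnitalCStarAlgebra B]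
    (M : Set B) (ε δ : ℝ) : Prop :=
  ∀ φ : A → B, (∀ a, φ a ∈ M) → IsEpsStarHom ε φ →
    ∃ ψ : A →⋆ₙₐ[ℂ] B, (∀ a, ψ a ∈ M) ∧ ∀ a, ‖a‖ ≤ 1 → ‖φ a - ψ a‖ ≤ δ

/-- The finite-dimensional C*-algebra `⊕_b M_{k b}(ℂ)`. -/
abbrev FinDim {n : ℕ} (k : Fin n → ℕ) : Type :=
  ∀ b : Fin n, CStarMatrix (Fin (k b)) (Fin (k b)) ℂ

/-- A completely positive contraction of order zero: it preserves orthogonality of positive
elements. -/
structure IsOrderZero {A : Type u} {B : Type v} [NonUnitalCStarAlgebra A] [PartialOrder A]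
    [StarOrderedRing A] [NonUnitalCStarAlgebra B] [PartialOrder B] [StarOrderedRing B]
    (θ : A →CP B) : Prop where
  contr : ∀ y, ‖θ y‖ ≤ ‖y‖
  orth : ∀ x y : A, 0 ≤ x → 0 ≤ y → x * y = 0 → θ x * θ y = 0

/-- `T` is a composition of a completely positive contraction of `A` to a finite-dimensional
C*-algebra and a completely positive contraction of order zero of that algebra to `A`. -/
def IsPiece {A : Type u} [NonUnitalCStarAlgebra A] [PartialOrder A] [StarOrderedRing A]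
    (T : A → A) : Prop :=
  ∃ (n : ℕ) (k : Fin n → ℕ) (ψ : A →CP FinDim k) (θ : FinDim k →CP A),
    (∀ a, ‖ψ a‖ ≤ ‖a‖) ∧ IsOrderZero θ ∧ ∀ a, T a = θ (ψ a)

/-- Nuclearity, in the form of Hirshberg, Kirchberg and White: the identity map of `A` is a limit,
in the topology of pointwise norm convergence, of convex combinations of compositions of a
completely positive contraction of `A` to a finite-dimensional C*-algebra and a completely positive
contraction of order zero of that algebra to `A`. -/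
def IsNuclear (A : Type u) [NonUnitalCStarAlgebra A] [PartialOrder A] [StarOrderedRing A] :
    Prop :=
  ∀ (X : Finset A) (η : ℝ), 0 < η → ∃ (m : ℕ) (w : Fin m → ℝ) (T : Fin m → A → A),
    (∀ i, 0 ≤ w i) ∧ ∑ i, w i = 1 ∧ (∀ i, IsPiece (T i)) ∧
    ∀ x ∈ X, ‖x - ∑ i, w i • T i x‖ ≤ η

/-- Nuclear C*-algebras are Ulam stable with respect to von Neumann algebras, with
`f ε = C * ε ^ (1/4)`. -/
theorem result : ∃ C : ℝ, ∀ (A : Type u) [NonUnitalCStarAlgebra A] [PartialOrder A]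
    [StarOrderedRing A] (H : Type v) [NormedAddCommGroup H] [InnerProductSpace ℂ H]
    [CompleteSpace H] (M : VonNeumannAlgebra H) (ε : ℝ), IsNuclear A →
    StarHomNear A (M : Set (H →L[ℂ] H)) ε (C * ε ^ (1 / 4 : ℝ)) := by
  obtain ⟨C, -, h⟩ := H253.US.ulam_dec.{u, v}
  refine ⟨C, fun A _ _ _ H _ _ _ M ε hA φ hM hφ => h A H M ε φ ?_ hM
    ⟨hφ.ball, hφ.add, hφ.mul, hφ.star, hφ.smul⟩⟩
  refine H253.US.isDecNuclear_of_weights A fun X η hη => ?_
  obtain ⟨m, w, T, hw, hs, hT, happ⟩ := hA X η hη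
  choose n k ψ θ hψ hθ hTe using hT
  refine ⟨m, w, n, k, ψ, θ, hw, hs, hψ, fun i => ⟨(hθ i).contr, (hθ i).orth⟩, fun x hx => ?_⟩
  have h1 := happ x hx
  simp only [hTe] at h1
  exact h1

end Pool.Agent.Results.MP_a35bd4_an.NuclearUlam
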